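import Pool.Agent.H54.Zim.Rank

/-!
# Operators on functions on a set with an action
-/

set_option autoImplicit false

open Finset Module

namespace Pool.Agent.H54.Zim

variable (k : Type*) [Field k] {A : Type*} [CommGroup A] {Y : Type*} [MulAction A Y]

/-- translation -/
def act (g : A) : (Y → k) →ₗ[k] (Y → k) where
  toFun f y := f (g • y)
  map_add' _ _ := rfl
  map_smul' _ _ := rfl

/-- `g - 1` -/
def xo (g : A) : (Y → k) →ₗ[k] (Y → k) := act k g - LinearMap.id

/-- `1 + g + ... + g ^ (p - 1)` -/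
def yo (p : ℕ) (g : A) : (Y → k) →ₗ[k] (Y → k) := ∑ l ∈ range p, act k (g ^ l)

/-- the operator `A` -/
def Ao (p : ℕ) (g : A) (a : Y → ZMod p) : (Y → k) →ₗ[k] (Y → k) where
  toFun f y := if a y = -1 then f (g • y) else 0
  map_add' f h := by
    funext y
    simp only [Pi.add_apply]
    split_ifs <;> simp
  map_smul' c f := by
    funext y
    simp only [Pi.smul_apply, RingHom.id_apply]
    split_ifs <;> simp

/-- the operator `B` -/
def Bo (p : ℕ) (g : A) (a : Y → ZMod p) : (Y → k) →ₗ[k] (Y → k) where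
  toFun f y := ∑ l ∈ range (a y).val, f ((g⁻¹) ^ (l + 1) • y)
  map_add' f h := by
    funext y
    simp only [Pi.add_apply, Finset.sum_add_distrib]
  map_smul' c f := by
    funext y
    simp only [Pi.smul_apply, RingHom.id_apply, Finset.smul_sum]

variable {k}

theorem act_apply (g : A) (f : Y → k) (y : Y) : act k g f y = f (g • y) := rfl

theorem xo_apply (g : A) (f : Y → k) (y : Y) : xo k g f y = f (g • y) - f y := rfl

theorem yo_apply (p : ℕ) (g : A) (f : Y → k) (y : Y) :
    yo k p g f y = ∑ l ∈ range p, f (g ^ l • y) := by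
  unfold yo
  rw [LinearMap.sum_apply, Finset.sum_apply]
  rfl

theorem Ao_apply (p : ℕ) (g : A) (a : Y → ZMod p) (f : Y → k) (y : Y) :
    Ao k p g a f y = if a y = -1 then f (g • y) else 0 := rfl

theorem Bo_apply (p : ℕ) (g : A) (a : Y → ZMod p) (f : Y → k) (y : Y) :
    Bo k p g a f y = ∑ l ∈ range (a y).val, f ((g⁻¹) ^ (l + 1) • y) := rfl

variable {p : ℕ}

theorem a_pow {g : A} {a : Y → ZMod p} {Sy : Set Y} (hS : ∀ y ∈ Sy, g • y ∈ Sy)
    (ha : ∀ y ∈ Sy, a (g • y) = a y + 1) {y : Y} (hy : y ∈ Sy) (l : ℕ) :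
    g ^ l • y ∈ Sy ∧ a (g ^ l • y) = a y + l := by
  induction l with
  | zero => simpa using hy
  | succ l ih =>
    rw [pow_succ', mul_smul]
    refine ⟨hS _ ih.1, ?_⟩
    rw [ha _ ih.1, ih.2]
    push_cast
    ring

theorem inv_pow_smul {g : A} {y : Y} (hp : g ^ p • y = y) {m : ℕ} (hm : m ≤ p) :
    (g⁻¹) ^ m • y = g ^ (p - m) • y := by
  conv_lhs => rw [← hp]
  rw [← mul_smul]
  congr 1
  have : g ^ p = g ^ m * g ^ (p - m) := by rw [← pow_add]; congr 1; omega
  rw [this, ← mul_assoc, ← mul_pow]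
  simp

theorem rel1 [Fact p.Prime] {g : A} {a : Y → ZMod p} {Sy : Set Y} (hS : ∀ y ∈ Sy, g • y ∈ Sy)
    (hp : ∀ y ∈ Sy, g ^ p • y = y) (ha : ∀ y ∈ Sy, a (g • y) = a y + 1) (f : Y → k) {y : Y}
    (hy : y ∈ Sy) : yo k p g (Ao k p g a f) y + Bo k p g a (xo k g f) y = f y := by
  have hpp : 0 < p := (Fact.out : p.Prime).pos
  have : NeZero p := ⟨hpp.ne'⟩
  have hv : (a y).val < p := ZMod.val_lt _
  have h1 : yo k p g (Ao k p g a f) y = f (g ^ (p - (a y).val) • y) := by
    rw [yo_apply, Finset.sum_eq_single (p - 1 - (a y).val)]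
    · rw [Ao_apply, (a_pow hS ha hy _).2, if_pos, ← mul_smul, ← pow_succ']
      · congr 3; omega
      · have h2 : (((a y).val + (p - 1 - (a y).val) + 1 : ℕ) : ZMod p) = 0 := by
          have : (a y).val + (p - 1 - (a y).val) + 1 = p := by omega
          rw [this]; exact ZMod.natCast_self p
        push_cast at h2
        rw [ZMod.natCast_zmod_val] at h2
        exact eq_neg_of_add_eq_zero_left h2
    · intro l hl hne
      rw [Ao_apply, (a_pow hS ha hy _).2, if_neg]
      intro h
      apply hne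
      have h2 : (((a y).val + l + 1 : ℕ) : ZMod p) = 0 := by
        push_cast
        rw [ZMod.natCast_zmod_val, h, neg_add_cancel]
      rw [ZMod.natCast_eq_zero_iff] at h2
      have hl' := Finset.mem_range.1 hl
      obtain ⟨c, hc⟩ := h2
      have hc1 : c = 1 := by
        have h3 : c < 2 := by
          by_contra hcc
          have : p * 2 ≤ p * c := Nat.mul_le_mul_left p (by omega)
          omega
        have h4 : c ≠ 0 := by
          rintro rfl
          omega
        omega
      rw [hc1] at hc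
      omega
    · intro h
      exact absurd (Finset.mem_range.2 (by omega)) h
  have h2 : Bo k p g a (xo k g f) y = f y - f ((g⁻¹) ^ (a y).val • y) := by
    rw [Bo_apply]
    have h3 : ∀ l, xo k g f ((g⁻¹) ^ (l + 1) • y) =
        f ((g⁻¹) ^ l • y) - f ((g⁻¹) ^ (l + 1) • y) := by
      intro l
      rw [xo_apply, ← mul_smul, pow_succ', ← mul_assoc, mul_inv_cancel, one_mul]
    rw [Finset.sum_congr rfl fun l _ => h3 l, Finset.sum_range_sub' (fun l => f ((g⁻¹) ^ l • y))]
    simp
  rw [h1, h2, inv_pow_smul (hp y hy) hv.le]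
  ring

theorem rel2 [Fact p.Prime] {g : A} {a : Y → ZMod p} {Sy : Set Y} (hp : ∀ y ∈ Sy, g ^ p • y = y)
    (ha : ∀ y ∈ Sy, a (g • y) = a y + 1) (f : Y → k) {y : Y}
    (hy : y ∈ Sy) : xo k g (Bo k p g a f) y + Ao k p g a (yo k p g f) y = f y := by
  have hpp : 0 < p := (Fact.out : p.Prime).pos
  have : NeZero p := ⟨hpp.ne'⟩
  have hv : (a y).val < p := ZMod.val_lt _
  rw [xo_apply, Bo_apply, Bo_apply, Ao_apply, ha y hy]
  by_cases h : a y = -1
  · have hval : (a y).val = p - 1 := by
      rw [h]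
      have h2 : p = (p - 1) + 1 := by omega
      have h3 : (-1 : ZMod p) = ((p - 1 : ℕ) : ZMod p) := by
        have : (((p - 1) + 1 : ℕ) : ZMod p) = 0 := by
          rw [← h2]; exact ZMod.natCast_self p
        push_cast at this
        exact (eq_neg_of_add_eq_zero_left this).symm
      rw [h3, ZMod.val_natCast, Nat.mod_eq_of_lt (by omega)]
    rw [if_pos h, h, neg_add_cancel, ZMod.val_zero, Finset.sum_range_zero, ← h, hval, yo_apply]
    have h4 : ∑ l ∈ range p, f (g ^ l • g • y) =
        ∑ l ∈ range (p - 1), f (g ^ (l + 1) • y) + f y := by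
      have : range p = range ((p - 1) + 1) := by congr 1; omega
      rw [this, Finset.sum_range_succ]
      congr 1
      · refine Finset.sum_congr rfl fun l _ => ?_
        rw [← mul_smul, ← pow_succ]
      · rw [← mul_smul, ← pow_succ]
        congr 1
        have : p - 1 + 1 = p := by omega
        rw [this, hp y hy]
    have h5 : ∑ l ∈ range (p - 1), f ((g⁻¹) ^ (l + 1) • y) =
        ∑ l ∈ range (p - 1), f (g ^ (l + 1) • y) := by
      rw [← Finset.sum_range_reflect]
      refine Finset.sum_congr rfl fun l hl => ?_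
      have hl' := Finset.mem_range.1 hl
      rw [inv_pow_smul (hp y hy) (by omega)]
      congr 3
      omega
    rw [h4, h5]
    ring
  · have hlt : (a y).val + 1 < p := by
      rcases Nat.lt_or_ge ((a y).val + 1) p with h1 | h1
      · exact h1
      · exfalso
        apply h
        have h2 : (((a y).val + 1 : ℕ) : ZMod p) = 0 := by
          have : (a y).val + 1 = p := by omega
          rw [this]; exact ZMod.natCast_self p
        push_cast at h2
        rw [ZMod.natCast_zmod_val] at h2
        exact eq_neg_of_add_eq_zero_left h2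
    have hval : (a y + 1).val = (a y).val + 1 := by
      rw [ZMod.val_add, ZMod.val_one_eq_one_mod, Nat.mod_eq_of_lt (show 1 < p by omega),
        Nat.mod_eq_of_lt hlt]
    rw [if_neg h, add_zero, hval, Finset.sum_range_succ']
    have h3 : ∀ l, (g⁻¹) ^ (l + 1) • g • y = (g⁻¹) ^ l • y := by
      intro l
      rw [← mul_smul, pow_succ, mul_assoc, inv_mul_cancel, mul_one]
    have h4 : ∑ l ∈ range (a y).val, f ((g⁻¹) ^ (l + 1 + 1) • g • y) =
        ∑ l ∈ range (a y).val, f ((g⁻¹) ^ (l + 1) • y) :=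
      Finset.sum_congr rfl fun l _ => by rw [h3]
    rw [h4, h3, pow_zero, one_smul]
    ring

/-- existence of equivariant maps -/
theorem exists_equiv {B E Y : Type*} [Group B] [Group E] [MulAction B Y] (φ : B →* E) (Sy : Set Y)
    (hS : ∀ b : B, ∀ y ∈ Sy, b • y ∈ Sy) (h : ∀ y ∈ Sy, ∀ b : B, b • y = y → φ b = 1) :
    ∃ a : Y → E, ∀ y ∈ Sy, ∀ b : B, a (b • y) = φ b * a y := by
  classical
  have h1 : ∀ y : Y, ∃ b : B,
      b • (Quotient.out (Quotient.mk (MulAction.orbitRel B Y) y)) = y := by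
    intro y
    have h2 : (MulAction.orbitRel B Y).r
        (Quotient.out (Quotient.mk (MulAction.orbitRel B Y) y)) y :=
      Quotient.exact (Quotient.out_eq _)
    exact (MulAction.orbitRel B Y).symm h2
  choose b hb using h1
  refine ⟨fun y => φ (b y), fun y hy c => ?_⟩
  have h2 : Quotient.mk (MulAction.orbitRel B Y) (c • y) = Quotient.mk (MulAction.orbitRel B Y) y :=
    Quotient.sound ⟨c, rfl⟩
  have h3 := hb (c • y)
  have h4 := hb y
  rw [h2] at h3
  set o := Quotient.out (Quotient.mk (MulAction.orbitRel B Y) y) with ho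
  have h5 : o ∈ Sy := by
    have : o = (b y)⁻¹ • y := by rw [eq_inv_smul_iff]; exact h4
    rw [this]
    exact hS _ y hy
  have h6 : ((b (c • y))⁻¹ * (c * b y)) • o = o := by
    rw [mul_smul, mul_smul, inv_smul_eq_iff, h4, h3]
  have h7 := h o h5 _ h6
  rw [map_mul, map_mul, map_inv, inv_mul_eq_one] at h7
  exact h7

end Pool.Agent.H54.Zim
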