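import Mathlib

/-!
# Operators on multi-indexed families (Borel construction of an elementary abelian `p`-group)
-/

set_option autoImplicit false

open Finset

namespace Pool.Agent.H54.Zim

variable {s : ℕ}

/-- lower the coordinate `j` by one -/
def low (j : Fin s) (α : Fin s → ℕ) : Fin s → ℕ := Function.update α j (α j - 1)

/-- raise the coordinate `j` by `m` -/
def up (j : Fin s) (m : ℕ) (α : Fin s → ℕ) : Fin s → ℕ := Function.update α j (α j + m)

theorem low_same (j : Fin s) (α : Fin s → ℕ) : low j α j = α j - 1 := by simp [low]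

theorem low_ne {i j : Fin s} (h : i ≠ j) (α : Fin s → ℕ) : low j α i = α i := by
  simp [low, h]

theorem up_same (j : Fin s) (m : ℕ) (α : Fin s → ℕ) : up j m α j = α j + m := by simp [up]

theorem up_ne {i j : Fin s} (h : i ≠ j) (m : ℕ) (α : Fin s → ℕ) : up j m α i = α i := by
  simp [up, h]

theorem low_comm (i j : Fin s) (α : Fin s → ℕ) : low i (low j α) = low j (low i α) := by
  funext l
  by_cases h1 : l = i
  · subst h1
    by_cases h2 : l = j
    · subst h2; rfl
    · rw [low_same, low_ne h2, low_ne h2, low_same]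
  · by_cases h2 : l = j
    · subst h2
      rw [low_ne h1, low_same, low_same, low_ne h1]
    · rw [low_ne h1, low_ne h2, low_ne h2, low_ne h1]

theorem low_le (j : Fin s) (α : Fin s → ℕ) : low j α ≤ α := by
  intro l
  by_cases h : l = j
  · subst h; rw [low_same]; exact Nat.sub_le _ _
  · rw [low_ne h]

theorem low_up {j : Fin s} {m : ℕ} {α : Fin s → ℕ} (h : α j ≠ 0) :
    low j (up j m α) = up j m (low j α) := by
  funext l
  by_cases h1 : l = j
  · subst h1
    rw [low_same, up_same, up_same, low_same]; omega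
  · rw [low_ne h1, up_ne h1, up_ne h1, low_ne h1]

theorem low_up_ne {i j : Fin s} (h : i ≠ j) (m : ℕ) (α : Fin s → ℕ) :
    low i (up j m α) = up j m (low i α) := by
  funext l
  by_cases h1 : l = j
  · subst h1
    rw [low_ne (Ne.symm h), up_same, up_same, low_ne (Ne.symm h)]
  · by_cases h2 : l = i
    · subst h2
      rw [low_same, up_ne h1, up_ne h1, low_same]
    · rw [low_ne h2, up_ne h1, up_ne h1, low_ne h2]

/-- the sum of the coordinates -/
theorem sum_low {t : Finset (Fin s)} {j : Fin s} {α : Fin s → ℕ} (hj : j ∈ t) (h : α j ≠ 0) :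
    ∑ l ∈ t, α l = ∑ l ∈ t, low j α l + 1 := by
  unfold low
  rw [Finset.sum_update_of_mem hj, ← Finset.add_sum_erase t α hj, Finset.sdiff_singleton_eq_erase]
  omega

theorem sum_low' {t : Finset (Fin s)} {j : Fin s} {α : Fin s → ℕ} (hj : j ∉ t) :
    ∑ l ∈ t, low j α l = ∑ l ∈ t, α l := by
  refine Finset.sum_congr rfl fun l hl => low_ne ?_ α
  rintro rfl
  exact hj hl

theorem sum_up {t : Finset (Fin s)} {j : Fin s} {α : Fin s → ℕ} {m : ℕ} (hj : j ∈ t) :
    ∑ l ∈ t, up j m α l = ∑ l ∈ t, α l + m := by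
  unfold up
  rw [Finset.sum_update_of_mem hj, ← Finset.add_sum_erase t α hj, Finset.sdiff_singleton_eq_erase]
  omega

theorem sum_up' {t : Finset (Fin s)} {j : Fin s} {α : Fin s → ℕ} {m : ℕ} (hj : j ∉ t) :
    ∑ l ∈ t, up j m α l = ∑ l ∈ t, α l := by
  refine Finset.sum_congr rfl fun l hl => up_ne ?_ m α
  rintro rfl
  exact hj hl

variable {k : Type*} [Field k]

/-- the sign `(-1) ^ |α|` -/
def sg (k : Type*) [Field k] (α : Fin s → ℕ) : k := (-1) ^ (∑ l, α l)

/-- the sign `(-1) ^ (sum of the coordinates before j)` -/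
def tau (k : Type*) [Field k] (j : Fin s) (α : Fin s → ℕ) : k :=
  (-1) ^ (∑ l ∈ univ.filter (· < j), α l)

theorem sg_low {j : Fin s} {α : Fin s → ℕ} (h : α j ≠ 0) : sg k (low j α) = -sg k α := by
  unfold sg
  rw [sum_low (mem_univ j) h, pow_succ]
  ring

theorem sg_up {j : Fin s} {α : Fin s → ℕ} (m : ℕ) : sg k (up j (2 * m) α) = sg k α := by
  unfold sg
  rw [sum_up (mem_univ j), pow_add, pow_mul]
  simp

theorem tau_low_lt {i j : Fin s} {α : Fin s → ℕ} (hij : j < i) (h : α j ≠ 0) :
    tau k i (low j α) = -tau k i α := by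
  unfold tau
  rw [sum_low (j := j) (α := α) (by simpa using hij) h, pow_succ]
  ring

theorem tau_low_not_lt {i j : Fin s} {α : Fin s → ℕ} (hij : ¬ j < i) :
    tau k i (low j α) = tau k i α := by
  unfold tau
  rw [sum_low' (by simpa using hij)]

theorem tau_up {i j : Fin s} {α : Fin s → ℕ} (m : ℕ) : tau k i (up j (2 * m) α) = tau k i α := by
  unfold tau
  by_cases h : j < i
  · rw [sum_up (j := j) (by simpa using h), pow_add, pow_mul]
    simp
  · rw [sum_up' (by simpa using h)]

theorem sg_sq (α : Fin s → ℕ) : sg k α * sg k α = 1 := by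
  unfold sg
  rw [← pow_add, ← two_mul, pow_mul]; simp

theorem tau_sq (j : Fin s) (α : Fin s → ℕ) : tau k j α * tau k j α = 1 := by
  unfold tau
  rw [← pow_add, ← two_mul, pow_mul]; simp

theorem tau_anti {i j : Fin s} {α : Fin s → ℕ} (h : i ≠ j) (hi : α i ≠ 0) (hj : α j ≠ 0) :
    tau k i α * tau k j (low i α) + tau k j α * tau k i (low j α) = 0 := by
  rcases lt_or_gt_of_ne h with h1 | h1
  · rw [tau_low_lt h1 hi, tau_low_not_lt (not_lt.2 h1.le)]; ring
  · rw [tau_low_not_lt (not_lt.2 h1.le), tau_low_lt h1 hj]; ring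

variable {C : Type*} [AddCommGroup C] [Module k C]

/-- the operator `f ↦ (α ↦ ± G (α j) (f (α - e_j)))` -/
def S (j : Fin s) (G : ℕ → C →ₗ[k] C) : ((Fin s → ℕ) → C) →ₗ[k] ((Fin s → ℕ) → C) where
  toFun f α := if α j = 0 then 0 else tau k j α • G (α j) (f (low j α))
  map_add' f g := by
    funext α
    simp only [Pi.add_apply]
    split_ifs
    · simp
    · rw [map_add, smul_add]
  map_smul' c f := by
    funext α
    simp only [Pi.smul_apply, RingHom.id_apply]
    split_ifs
    · simp
    · rw [map_smul, smul_comm]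

/-- the operator `f ↦ (α ↦ ± G (α j) (f (α - e_j)))`, another sign -/
def S' (j : Fin s) (G : ℕ → C →ₗ[k] C) : ((Fin s → ℕ) → C) →ₗ[k] ((Fin s → ℕ) → C) where
  toFun f α := if α j = 0 then 0 else (sg k α * tau k j α) • G (α j) (f (low j α))
  map_add' f g := by
    funext α
    simp only [Pi.add_apply]
    split_ifs
    · simp
    · rw [map_add, smul_add]
  map_smul' c f := by
    funext α
    simp only [Pi.smul_apply, RingHom.id_apply]
    split_ifs
    · simp
    · rw [map_smul, smul_comm]

/-- the operator `f ↦ (α ↦ ± d (f α))` -/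
def dh (s : ℕ) (d : C →ₗ[k] C) : ((Fin s → ℕ) → C) →ₗ[k] ((Fin s → ℕ) → C) where
  toFun f α := sg k α • d (f α)
  map_add' f g := by
    funext α
    simp only [Pi.add_apply]
    rw [map_add, smul_add]
  map_smul' c f := by
    funext α
    simp only [Pi.smul_apply, RingHom.id_apply]
    rw [map_smul, smul_comm]

/-- the double shift -/
def Y (k : Type*) [Field k] {C : Type*} [AddCommGroup C] [Module k C] (j : Fin s) :
    ((Fin s → ℕ) → C) →ₗ[k] ((Fin s → ℕ) → C) where
  toFun f α := if α j < 2 then 0 else f (low j (low j α))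
  map_add' f g := by
    funext α
    simp only [Pi.add_apply]
    split_ifs <;> simp
  map_smul' c f := by
    funext α
    simp only [Pi.smul_apply, RingHom.id_apply]
    split_ifs <;> simp

theorem S_apply (j : Fin s) (G : ℕ → C →ₗ[k] C) (f : (Fin s → ℕ) → C) (α : Fin s → ℕ) :
    S j G f α = if α j = 0 then 0 else tau k j α • G (α j) (f (low j α)) := rfl

theorem S'_apply (j : Fin s) (G : ℕ → C →ₗ[k] C) (f : (Fin s → ℕ) → C) (α : Fin s → ℕ) :
    S' j G f α = if α j = 0 then 0 else (sg k α * tau k j α) • G (α j) (f (low j α)) := rfl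

theorem dh_apply (d : C →ₗ[k] C) (f : (Fin s → ℕ) → C) (α : Fin s → ℕ) :
    dh s d f α = sg k α • d (f α) := rfl

theorem Y_apply (j : Fin s) (f : (Fin s → ℕ) → C) (α : Fin s → ℕ) :
    Y k j f α = if α j < 2 then 0 else f (low j (low j α)) := rfl

theorem dh_dh {d : C →ₗ[k] C} (hd : ∀ c, d (d c) = 0) (f : (Fin s → ℕ) → C) :
    dh s d (dh s d f) = 0 := by
  funext α
  rw [dh_apply, dh_apply, map_smul, hd]
  simp

theorem dh_S {d : C →ₗ[k] C} (j : Fin s) (G : ℕ → C →ₗ[k] C) (f : (Fin s → ℕ) → C) :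
    dh s d (S j G f) + S j G (dh s d f) = S' j (fun a => d ∘ₗ G a - G a ∘ₗ d) f := by
  funext α
  rw [Pi.add_apply, dh_apply, S_apply, S_apply, S'_apply]
  split_ifs with h
  · simp
  · rw [dh_apply, sg_low h, map_smul, map_smul, smul_smul, smul_smul, LinearMap.sub_apply,
      LinearMap.comp_apply, LinearMap.comp_apply, smul_sub, mul_neg, neg_smul, ← sub_eq_add_neg,
      mul_comm (tau k j α)]

theorem S_S_ne {i j : Fin s} (hij : i ≠ j) (G K : ℕ → C →ₗ[k] C)
    (h : ∀ a b c, G a (K b c) = K b (G a c)) (f : (Fin s → ℕ) → C) :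
    S i G (S j K f) + S j K (S i G f) = 0 := by
  funext α
  rw [Pi.add_apply, S_apply i G (S j K f) α, S_apply j K (S i G f) α]
  by_cases hi : α i = 0
  · rw [if_pos hi]
    by_cases hj : α j = 0
    · rw [if_pos hj]; simp
    · rw [if_neg hj, S_apply, low_ne hij, if_pos hi]; simp
  · rw [if_neg hi, S_apply, low_ne hij.symm]
    by_cases hj : α j = 0
    · rw [if_pos hj, if_pos hj]; simp
    · rw [if_neg hj, if_neg hj, S_apply, low_ne hij, if_neg hi, map_smul, map_smul, smul_smul,
        smul_smul, h, low_comm i j, ← add_smul, tau_anti hij hi hj, zero_smul]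
      rfl

theorem S_S_same (j : Fin s) (G K : ℕ → C →ₗ[k] C) (f : (Fin s → ℕ) → C) (α : Fin s → ℕ) :
    S j G (S j K f) α = if α j < 2 then 0 else G (α j) (K (α j - 1) (f (low j (low j α)))) := by
  rw [S_apply]
  by_cases h0 : α j = 0
  · rw [if_pos h0, if_pos (by omega)]
  · rw [if_neg h0, S_apply, low_same]
    by_cases h2 : α j < 2
    · rw [if_pos (by omega), if_pos h2]; simp
    · rw [if_neg (by omega), if_neg h2, map_smul, smul_smul, tau_low_not_lt (lt_irrefl j), tau_sq,
        one_smul]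

theorem Y_dh (j : Fin s) (d : C →ₗ[k] C) (f : (Fin s → ℕ) → C) :
    Y k j (dh s d f) = dh s d (Y k j f) := by
  funext α
  rw [Y_apply, dh_apply, dh_apply, Y_apply]
  by_cases h : α j < 2
  · rw [if_pos h, if_pos h]; simp
  · rw [if_neg h, if_neg h, sg_low (by rw [low_same]; omega), sg_low (by omega), neg_neg]

theorem Y_S (i j : Fin s) (G : ℕ → C →ₗ[k] C) (hG : ∀ a, G (a + 2) = G a)
    (f : (Fin s → ℕ) → C) : Y k i (S j G f) = S j G (Y k i f) := by
  funext α
  rw [Y_apply, S_apply]
  by_cases hij : i = j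
  · subst hij
    rw [S_apply, low_same, low_same]
    by_cases h2 : α i < 2
    · rw [if_pos h2]
      by_cases h0 : α i = 0
      · rw [if_pos h0]
      · rw [if_neg h0, Y_apply, low_same, if_pos (by omega)]; simp
    · rw [if_neg h2, if_neg (show ¬ α i = 0 by omega)]
      by_cases h3 : α i = 2
      · rw [if_pos (by omega), Y_apply, low_same, if_pos (by omega)]; simp
      · rw [if_neg (by omega), Y_apply, low_same, if_neg (by omega)]
        rw [tau_low_not_lt (lt_irrefl i), tau_low_not_lt (lt_irrefl i)]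
        have : α i = (α i - 1 - 1) + 2 := by omega
        rw [this, hG, ← this]
  · have hji : j ≠ i := Ne.symm hij
    rw [S_apply, low_ne hji, low_ne hji]
    by_cases h0 : α j = 0
    · rw [if_pos h0, if_pos h0]; simp
    · rw [if_neg h0, if_neg h0, Y_apply, low_ne hij]
      by_cases h2 : α i < 2
      · rw [if_pos h2, if_pos h2]; simp
      · rw [if_neg h2, if_neg h2, low_comm j i, low_comm j i]
        congr 1
        by_cases hlt : i < j
        · rw [tau_low_lt hlt (by rw [low_same]; omega), tau_low_lt hlt (by omega), neg_neg]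
        · rw [tau_low_not_lt hlt, tau_low_not_lt hlt]

theorem Y_S' (i j : Fin s) (G : ℕ → C →ₗ[k] C) (hG : ∀ a, G (a + 2) = G a)
    (f : (Fin s → ℕ) → C) : Y k i (S' j G f) = S' j G (Y k i f) := by
  have key : ∀ g : (Fin s → ℕ) → C, S' j G g = dh s (LinearMap.id : C →ₗ[k] C) (S j G g) := by
    intro g
    funext α
    rw [S'_apply, dh_apply, S_apply]
    split_ifs
    · simp
    · rw [LinearMap.id_apply, smul_smul]
  rw [key, key, Y_dh, Y_S _ _ _ hG]

theorem low_zero {j : Fin s} {α : Fin s → ℕ} (h : α j = 0) : low j α = α := by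
  funext l
  by_cases h1 : l = j
  · subst h1; rw [low_same]; omega
  · rw [low_ne h1]

/-- antisymmetric double sums vanish -/
theorem sum_anti {ι A : Type*} [DecidableEq ι] [AddCommGroup A] (t : Finset ι) (F : ι → ι → A)
    (h1 : ∀ i, F i i = 0) (h2 : ∀ i j, i ≠ j → F i j + F j i = 0) :
    ∑ i ∈ t, ∑ j ∈ t, F i j = 0 := by
  induction t using Finset.induction_on with
  | empty => simp
  | insert a t ha ih =>
    rw [Finset.sum_insert ha, Finset.sum_insert ha, h1, zero_add]
    have : ∑ i ∈ t, ∑ j ∈ insert a t, F i j = ∑ i ∈ t, F i a + ∑ i ∈ t, ∑ j ∈ t, F i j := by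
      rw [← Finset.sum_add_distrib]
      refine Finset.sum_congr rfl fun i _ => ?_
      rw [Finset.sum_insert ha]
    rw [this, ih, add_zero, ← Finset.sum_add_distrib]
    refine Finset.sum_eq_zero fun i hi => h2 a i ?_
    rintro rfl
    exact ha hi

end Pool.Agent.H54.Zim
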