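import Pool.Agent.H54.Zim.Alg3

/-!
# The dimension of the homology of subcomplexes
-/

set_option autoImplicit false

open Finset Module

namespace Pool.Agent.H54.Zim

variable {k : Type*} [Field k] {W : Type*} [AddCommGroup W] [Module k W]

/-- the dimension of the homology of the subcomplex `V` -/
noncomputable def hh (d : W →ₗ[k] W) (V : Submodule k W) : ℤ :=
  (finrank k V : ℤ) - 2 * finrank k (V.map d)

theorem hh_ker [FiniteDimensional k W] (d G : W →ₗ[k] W) (V : Submodule k W)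
    (hV : ∀ c ∈ V, d c ∈ V) (hdd : ∀ c ∈ V, d (d c) = 0) (hG : ∀ c ∈ V, G (d c) = d (G c)) :
    hh d (V ⊓ LinearMap.ker G) ≤ hh d V + hh d (V.map G) := by
  have e1 := Dat.fr G V
  have e2 := Dat.fr G (V.map d)
  have e3 : (V.map d).map G = (V.map G).map d := by
    ext c
    constructor
    · rintro ⟨_, ⟨a, ha, rfl⟩, rfl⟩
      exact ⟨G a, ⟨a, ha, rfl⟩, (hG a ha).symm⟩
    · rintro ⟨_, ⟨a, ha, rfl⟩, rfl⟩
      exact ⟨d a, ⟨a, ha, rfl⟩, hG a ha⟩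
  rw [e3] at e2
  have e4 := Dat.fr d (V ⊓ LinearMap.ker (G ∘ₗ d))
  have e5 : (V ⊓ LinearMap.ker (G ∘ₗ d)).map d = V.map d ⊓ LinearMap.ker G := by
    ext c
    constructor
    · rintro ⟨a, ⟨ha, hb⟩, rfl⟩
      exact ⟨⟨a, ha, rfl⟩, hb⟩
    · rintro ⟨⟨a, ha, rfl⟩, hb⟩
      exact ⟨a, ⟨ha, hb⟩, rfl⟩
  have e6 : (V ⊓ LinearMap.ker (G ∘ₗ d)) ⊓ LinearMap.ker d = V ⊓ LinearMap.ker d := by
    ext c
    constructor
    · rintro ⟨⟨ha, _⟩, hc⟩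
      exact ⟨ha, hc⟩
    · rintro ⟨ha, hc⟩
      refine ⟨⟨ha, ?_⟩, hc⟩
      change G (d c) = 0
      rw [LinearMap.mem_ker.1 hc, map_zero]
  rw [e5, e6] at e4
  have e7 := Dat.fr G (V ⊓ LinearMap.ker (G ∘ₗ d))
  have e8 : (V ⊓ LinearMap.ker (G ∘ₗ d)) ⊓ LinearMap.ker G = V ⊓ LinearMap.ker G := by
    ext c
    constructor
    · rintro ⟨⟨ha, _⟩, hc⟩
      exact ⟨ha, hc⟩
    · rintro ⟨ha, hc⟩
      refine ⟨⟨ha, ?_⟩, hc⟩
      change G (d c) = 0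
      rw [hG c ha, LinearMap.mem_ker.1 hc, map_zero]
  rw [e8] at e7
  have e9 := Dat.fr G (V ⊓ LinearMap.ker d)
  have e10 : (V ⊓ LinearMap.ker d) ⊓ LinearMap.ker G = (V ⊓ LinearMap.ker G) ⊓ LinearMap.ker d := by
    rw [inf_assoc, inf_assoc, inf_comm (LinearMap.ker d)]
  rw [e10] at e9
  have e11 : (V.map G).map d ≤ (V ⊓ LinearMap.ker d).map G := by
    rintro _ ⟨_, ⟨a, ha, rfl⟩, rfl⟩
    exact ⟨d a, ⟨hV a ha, hdd a ha⟩, hG a ha⟩
  have e12 := Submodule.finrank_mono e11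
  have e13 := Dat.fr d (V ⊓ LinearMap.ker G)
  have e14 := Dat.fr d (V.map G)
  have e15 : (V ⊓ LinearMap.ker (G ∘ₗ d)).map G ≤ V.map G ⊓ LinearMap.ker d := by
    rintro _ ⟨a, ⟨ha, hb⟩, rfl⟩
    refine ⟨⟨a, ha, rfl⟩, ?_⟩
    change d (G a) = 0
    rw [← hG a ha]
    exact hb
  have e16 := Submodule.finrank_mono e15
  unfold hh
  omega

theorem hh_sup [FiniteDimensional k W] (d : W →ₗ[k] W) (V U : Submodule k W)
    (hV : ∀ c ∈ V, d c ∈ V) (hU : ∀ c ∈ U, d c ∈ U) (h : V ⊓ U = ⊥) :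
    hh d (V ⊔ U) = hh d V + hh d U := by
  have e1 := Submodule.finrank_sup_add_finrank_inf_eq V U
  have e2 := Submodule.finrank_sup_add_finrank_inf_eq (V.map d) (U.map d)
  have e3 : V.map d ⊓ U.map d = ⊥ := by
    rw [eq_bot_iff, ← h]
    rintro _ ⟨⟨a, ha, rfl⟩, ⟨b, hb, hab⟩⟩
    exact ⟨hV a ha, by rw [← hab]; exact hU b hb⟩
  rw [h, finrank_bot, add_zero] at e1
  rw [e3, finrank_bot, add_zero, ← Submodule.map_sup] at e2
  unfold hh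
  rw [e1, e2]
  push_cast
  ring

end Pool.Agent.H54.Zim
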