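import Pool.Agent.H54.Zim.Op

/-!
# Free actions of elementary abelian `p`-groups: the algebra

`Dat` are the data of a finite complex `C` with commuting operators `x j` (think of `x j = g j - 1`,
`y j = 1 + g j + ... + g j ^ (p - 1)`) and homotopies `A j`, `B j`, and `main` says that the
homology of such a complex is zero or of dimension greater than `s`.
-/

set_option autoImplicit false

open Finset Module

namespace Pool.Agent.H54.Zim

/-- a complex of finite dimensional spaces with a free action of an elementary abelian group -/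
structure Dat (k : Type*) [Field k] (C : Type*) [AddCommGroup C] [Module k C] (s : ℕ) where
  d : C →ₗ[k] C
  T : ℕ
  π : ℕ → C →ₗ[k] C
  x : Fin s → C →ₗ[k] C
  y : Fin s → C →ₗ[k] C
  A : Fin s → C →ₗ[k] C
  B : Fin s → C →ₗ[k] C
  dd : ∀ c, d (d c) = 0
  ππ : ∀ n m c, π n (π m c) = if n = m then π n c else 0
  πs : ∀ c, ∑ n ∈ range T, π n c = c
  dπ : ∀ n c, d (π (n + 1) c) = π n (d c)
  dπ0 : ∀ c, d (π 0 c) = 0
  xd : ∀ j c, x j (d c) = d (x j c)
  yd : ∀ j c, y j (d c) = d (y j c)
  xπ : ∀ j n c, x j (π n c) = π n (x j c)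
  yπ : ∀ j n c, y j (π n c) = π n (y j c)
  Aπ : ∀ j n c, A j (π n c) = π n (A j c)
  Bπ : ∀ j n c, B j (π n c) = π n (B j c)
  xx : ∀ i j c, x i (x j c) = x j (x i c)
  xy : ∀ i j c, x i (y j c) = y j (x i c)
  yy : ∀ i j c, y i (y j c) = y j (y i c)
  xy0 : ∀ j c, x j (y j c) = 0
  Ax : ∀ i j c, i ≠ j → A i (x j c) = x j (A i c)
  Ay : ∀ i j c, i ≠ j → A i (y j c) = y j (A i c)
  Bx : ∀ i j c, i ≠ j → B i (x j c) = x j (B i c)
  By : ∀ i j c, i ≠ j → B i (y j c) = y j (B i c)
  rel1 : ∀ j c, y j (A j c) + B j (x j c) = c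
  rel2 : ∀ j c, x j (B j c) + A j (y j c) = c
  N : ℕ
  xN : ∀ j, x j ^ N = 0
  yN : ∀ j, y j ^ N = 0

variable {k : Type*} [Field k] {C : Type*} [AddCommGroup C] [Module k C] {s : ℕ}

/-- Nakayama's lemma for commuting nilpotent operators -/
theorem nakayama {ι : Type*} [DecidableEq ι] (F : ι → Module.End k C) (N : ℕ)
    (hN : ∀ i, F i ^ N = 0) (hc : ∀ i j c, F i (F j c) = F j (F i c)) (V : Submodule k C)
    (hV : ∀ i, V.map (F i) ≤ V) (t : Finset ι) :
    ∀ W : Submodule k C, (∀ i, W.map (F i) ≤ W) → V ≤ W ⊔ t.sup (fun i => V.map (F i)) →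
      V ≤ W := by
  induction t using Finset.induction_on with
  | empty => intro W _ h; simpa using h
  | insert a t ha ih =>
    intro W hW h
    refine ih W hW ?_
    set W' := W ⊔ t.sup (fun i => V.map (F i)) with hW'
    have h1 : V ≤ W' ⊔ V.map (F a) := by
      refine h.trans ?_
      rw [Finset.sup_insert, hW']
      refine sup_le (le_sup_left.trans le_sup_left) (sup_le le_sup_right ?_)
      exact le_sup_right.trans le_sup_left
    have hst : ∀ m, W'.map (F a ^ m) ≤ W' := by
      have h0 : W'.map (F a) ≤ W' := by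
        rw [hW', Submodule.map_sup]
        refine sup_le ((hW a).trans le_sup_left) ?_
        rw [Finset.sup_eq_iSup, Submodule.map_iSup]
        refine iSup_le fun i => ?_
        rw [Submodule.map_iSup]
        refine iSup_le fun hi => ?_
        refine le_sup_of_le_right ?_
        refine le_trans ?_ (le_iSup₂ (f := fun i (_ : i ∈ t) => V.map (F i)) i hi)
        rintro _ ⟨_, ⟨c, hc1, rfl⟩, rfl⟩
        refine ⟨F a c, hV a ⟨c, hc1, rfl⟩, ?_⟩
        exact hc i a c
      intro m
      induction m with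
      | zero => rw [pow_zero]; rintro _ ⟨c, hc1, rfl⟩; exact hc1
      | succ m ihm =>
        rw [pow_succ', Module.End.mul_eq_comp, Submodule.map_comp]
        exact (Submodule.map_mono ihm).trans h0
    have h2 : ∀ m, V ≤ W' ⊔ V.map (F a ^ m) := by
      intro m
      induction m with
      | zero =>
        refine le_sup_of_le_right ?_
        rw [pow_zero]
        intro c hc1
        exact ⟨c, hc1, rfl⟩
      | succ m ihm =>
        refine ihm.trans (sup_le le_sup_left ?_)
        refine (Submodule.map_mono h1).trans ?_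
        rw [Submodule.map_sup]
        refine sup_le ((hst m).trans le_sup_left) ?_
        rw [← Submodule.map_comp, ← Module.End.mul_eq_comp, ← pow_succ]
        exact le_sup_right
    have h3 := h2 N
    rw [hN] at h3
    have h4 : V.map (0 : Module.End k C) = ⊥ := Submodule.map_zero V
    rwa [h4, sup_bot_eq] at h3

namespace Dat

variable (P : Dat k C s)

/-- `x` or `y`, depending on the parity -/
def X (j : Fin s) (a : ℕ) : C →ₗ[k] C := if Even a then P.y j else P.x j

/-- `B` or `A`, depending on the parity -/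
def H (j : Fin s) (a : ℕ) : C →ₗ[k] C := if Even a then P.B j else P.A j

theorem X2 (j : Fin s) (a : ℕ) : P.X j (a + 2) = P.X j a := by
  unfold X
  have : Even (a + 2) ↔ Even a := by rw [Nat.even_add]; simp
  simp only [this]

theorem H2 (j : Fin s) (a : ℕ) : P.H j (a + 2) = P.H j a := by
  unfold H
  have : Even (a + 2) ↔ Even a := by rw [Nat.even_add]; simp
  simp only [this]

theorem Xd (j : Fin s) (a : ℕ) (c : C) : P.X j a (P.d c) = P.d (P.X j a c) := by
  unfold X
  split_ifs
  · exact P.yd j c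
  · exact P.xd j c

theorem Xπ (j : Fin s) (a n : ℕ) (c : C) : P.X j a (P.π n c) = P.π n (P.X j a c) := by
  unfold X
  split_ifs
  · exact P.yπ j n c
  · exact P.xπ j n c

theorem Hπ (j : Fin s) (a n : ℕ) (c : C) : P.H j a (P.π n c) = P.π n (P.H j a c) := by
  unfold H
  split_ifs
  · exact P.Bπ j n c
  · exact P.Aπ j n c

theorem XX (i j : Fin s) (a b : ℕ) (c : C) : P.X i a (P.X j b c) = P.X j b (P.X i a c) := by
  unfold X
  split_ifs
  · exact P.yy i j c
  · exact (P.xy j i c).symm
  · exact P.xy i j c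
  · exact P.xx i j c

theorem HX {i j : Fin s} (h : i ≠ j) (a b : ℕ) (c : C) :
    P.H i a (P.X j b c) = P.X j b (P.H i a c) := by
  unfold X H
  split_ifs
  · exact P.By i j c h
  · exact P.Bx i j c h
  · exact P.Ay i j c h
  · exact P.Ax i j c h

theorem XX0 (j : Fin s) {a : ℕ} (ha : a ≠ 0) (c : C) : P.X j a (P.X j (a - 1) c) = 0 := by
  obtain ⟨b, rfl⟩ : ∃ b, a = b + 1 := ⟨a - 1, by omega⟩
  rw [Nat.add_sub_cancel]
  unfold X
  by_cases hb : Even b
  · rw [if_neg (by rw [Nat.even_add_one]; exact not_not.2 hb), if_pos hb]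
    exact P.xy0 j c
  · rw [if_pos (by rw [Nat.even_add_one]; exact hb), if_neg hb, ← P.xy]
    exact P.xy0 j c

theorem XH (j : Fin s) {a : ℕ} (ha : a ≠ 0) (c : C) :
    P.X j a (P.H j (a - 1) c) + P.H j a (P.X j (a - 1) c) = c := by
  obtain ⟨b, rfl⟩ : ∃ b, a = b + 1 := ⟨a - 1, by omega⟩
  rw [Nat.add_sub_cancel]
  unfold X H
  by_cases hb : Even b
  · have hb' : ¬ Even (b + 1) := by rw [Nat.even_add_one]; exact not_not.2 hb
    rw [if_neg hb', if_pos hb, if_neg hb', if_pos hb]
    exact P.rel2 j c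
  · have hb' : Even (b + 1) := by rw [Nat.even_add_one]; exact hb
    rw [if_pos hb', if_neg hb, if_pos hb', if_neg hb]
    exact P.rel1 j c

/-- the differential of the Borel construction -/
def D : Module.End k ((Fin s → ℕ) → C) := dh s P.d + ∑ j, S j (P.X j)

theorem D_eq (f : (Fin s → ℕ) → C) : P.D f = dh s P.d f + ∑ j, S j (P.X j) f := by
  unfold D
  rw [LinearMap.add_apply, LinearMap.sum_apply]

theorem D_apply (f : (Fin s → ℕ) → C) (α : Fin s → ℕ) :
    P.D f α = sg k α • P.d (f α) +
      ∑ j, if α j = 0 then 0 else tau k j α • P.X j (α j) (f (low j α)) := by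
  rw [D_eq, Pi.add_apply, Finset.sum_apply, dh_apply]
  rfl

theorem DD (f : (Fin s → ℕ) → C) : P.D (P.D f) = 0 := by
  rw [P.D_eq (P.D f), P.D_eq f, map_add, dh_dh P.dd, zero_add, map_sum]
  have h1 : ∀ j, S j (P.X j) (dh s P.d f + ∑ i, S i (P.X i) f) =
      S j (P.X j) (dh s P.d f) + ∑ i, S j (P.X j) (S i (P.X i) f) := by
    intro j
    rw [map_add, map_sum]
  rw [Finset.sum_congr rfl fun j _ => h1 j, Finset.sum_add_distrib, ← add_assoc,
    ← Finset.sum_add_distrib]
  have h2 : ∀ j, dh s P.d (S j (P.X j) f) + S j (P.X j) (dh s P.d f) = 0 := by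
    intro j
    rw [dh_S]
    funext α
    rw [S'_apply]
    split_ifs
    · rfl
    · rw [LinearMap.sub_apply, LinearMap.comp_apply, LinearMap.comp_apply, P.Xd, sub_self,
        smul_zero]
      rfl
  rw [Finset.sum_eq_zero fun j _ => h2 j, zero_add]
  refine sum_anti _ _ ?_ ?_
  · intro j
    funext α
    rw [S_S_same]
    split_ifs
    · rfl
    · rw [P.XX0 j (by omega)]
      rfl
  · intro i j hij
    exact S_S_ne hij _ _ (fun a b c => P.XX i j a b c) f

/-- the homotopy -/
def h (i : Fin s) : Module.End k ((Fin s → ℕ) → C) := S i (P.H i)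

/-- the nilpotent part -/
def ε (i : Fin s) : Module.End k ((Fin s → ℕ) → C) :=
  S' i (fun a => P.d ∘ₗ P.H i a - P.H i a ∘ₗ P.d)

/-- the double shift -/
def Yj (_P : Dat k C s) (i : Fin s) : Module.End k ((Fin s → ℕ) → C) := Y k i

theorem Dh (i : Fin s) (f : (Fin s → ℕ) → C) :
    P.D (P.h i f) + P.h i (P.D f) = P.Yj i f + P.ε i f := by
  have h1 : P.D (P.h i f) + P.h i (P.D f) =
      (dh s P.d (S i (P.H i) f) + S i (P.H i) (dh s P.d f)) +
        ∑ j, (S j (P.X j) (S i (P.H i) f) + S i (P.H i) (S j (P.X j) f)) := by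
    rw [P.D_eq (P.h i f), P.D_eq f]
    unfold h
    rw [map_add, map_sum, Finset.sum_add_distrib]
    abel
  rw [h1, dh_S, add_comm]
  congr 1
  rw [Finset.sum_eq_single i]
  · funext α
    rw [Pi.add_apply, S_S_same, S_S_same]
    unfold Yj
    rw [Y_apply]
    split_ifs
    · simp
    · exact P.XH i (by omega) _
  · intro j _ hj
    rw [add_comm]
    exact S_S_ne hj.symm _ _ (fun a b c => P.HX hj.symm a b c) f
  · intro h; exact absurd (mem_univ i) h

theorem Dh' (i : Fin s) : P.D * P.h i + P.h i * P.D = P.Yj i + P.ε i :=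
  LinearMap.ext fun f => P.Dh i f

theorem DD' : P.D * P.D = 0 := LinearMap.ext fun f => P.DD f

theorem YD (i : Fin s) : Commute (P.Yj i) P.D := by
  refine LinearMap.ext fun f => ?_
  change Y k i (P.D f) = P.D (Y k i f)
  rw [P.D_eq, P.D_eq, map_add, map_sum, Y_dh]
  congr 1
  exact Finset.sum_congr rfl fun j _ => Y_S i j _ (P.X2 j) f

theorem Yε (i : Fin s) : Commute (P.Yj i) (P.ε i) := by
  refine LinearMap.ext fun f => ?_
  change Y k i (P.ε i f) = P.ε i (Y k i f)
  unfold ε
  refine Y_S' i i _ ?_ f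
  intro a
  rw [P.H2]

theorem εD (i : Fin s) : Commute (P.ε i) P.D := by
  have h1 : P.ε i = (P.D * P.h i + P.h i * P.D) - P.Yj i := by rw [P.Dh']; abel
  rw [h1]
  refine Commute.sub_left ?_ (P.YD i)
  have h2 := P.DD'
  unfold Commute SemiconjBy
  rw [add_mul, mul_add, mul_assoc, mul_assoc, h2, mul_zero, add_zero, ← mul_assoc P.D P.D, h2,
    zero_mul, zero_add]

/-- the elements of degree less than `n` -/
def Lo (n : ℕ) : Submodule k C where
  carrier := {c | ∀ m, n ≤ m → P.π m c = 0}
  zero_mem' := fun m _ => map_zero _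
  add_mem' := by
    intro a b ha hb m hm
    rw [map_add, ha m hm, hb m hm, add_zero]
  smul_mem' := by
    intro r a ha m hm
    rw [map_smul, ha m hm, smul_zero]

theorem πT (c : C) {m : ℕ} (hm : P.T ≤ m) : P.π m c = 0 := by
  conv_lhs => rw [← P.πs c]
  rw [map_sum]
  refine Finset.sum_eq_zero fun n hn => ?_
  rw [P.ππ, if_neg]
  have := Finset.mem_range.1 hn
  omega

theorem ε_pow (i : Fin s) (n : ℕ) (f : (Fin s → ℕ) → C) (α : Fin s → ℕ) (m : ℕ)
    (hm : P.T ≤ m + n) : P.π m ((P.ε i ^ n) f α) = 0 := by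
  induction n generalizing m α with
  | zero => rw [pow_zero]; exact P.πT _ (by omega)
  | succ n ih =>
    rw [pow_succ', Module.End.mul_apply]
    unfold ε at ih ⊢
    rw [S'_apply]
    split_ifs
    · exact map_zero _
    · rw [map_smul, LinearMap.sub_apply, LinearMap.comp_apply, LinearMap.comp_apply, map_sub,
        ← P.dπ, ← P.Hπ, ← P.Hπ, ← P.dπ, ih _ (m + 1) (by omega)]
      simp

theorem ε_nil (i : Fin s) {n : ℕ} (hn : P.T ≤ n) : P.ε i ^ n = 0 := by
  refine LinearMap.ext fun f => ?_
  funext α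
  change (P.ε i ^ n) f α = 0
  rw [← P.πs ((P.ε i ^ n) f α)]
  exact Finset.sum_eq_zero fun m _ => P.ε_pow i n f α m (by omega)

/-- causal operators -/
def Causal (F : Module.End k ((Fin s → ℕ) → C)) : Prop :=
  ∀ f α, (∀ β, β ≤ α → f β = 0) → F f α = 0

theorem Causal.mul {F G : Module.End k ((Fin s → ℕ) → C)} (hF : Causal F) (hG : Causal G) :
    Causal (F * G) := by
  intro f α h
  rw [Module.End.mul_apply]
  exact hF _ _ fun β hβ => hG _ _ fun γ hγ => h γ (hγ.trans hβ)

theorem Causal.add {F G : Module.End k ((Fin s → ℕ) → C)} (hF : Causal F) (hG : Causal G) :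
    Causal (F + G) := by
  intro f α h
  rw [LinearMap.add_apply, Pi.add_apply, hF f α h, hG f α h, add_zero]

theorem Causal.neg {F : Module.End k ((Fin s → ℕ) → C)} (hF : Causal F) : Causal (-F) := by
  intro f α h
  rw [LinearMap.neg_apply, Pi.neg_apply, hF f α h, neg_zero]

theorem Causal.one : Causal (1 : Module.End k ((Fin s → ℕ) → C)) := fun _ α h => h α le_rfl

theorem Causal.pow {F : Module.End k ((Fin s → ℕ) → C)} (hF : Causal F) (n : ℕ) :
    Causal (F ^ n) := by
  induction n with
  | zero => rw [pow_zero]; exact Causal.one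
  | succ n ih => rw [pow_succ]; exact ih.mul hF

theorem Causal.sum {ι : Type*} (t : Finset ι) (F : ι → Module.End k ((Fin s → ℕ) → C))
    (hF : ∀ i ∈ t, Causal (F i)) : Causal (∑ i ∈ t, F i) := by
  intro f α h
  rw [LinearMap.sum_apply, Finset.sum_apply]
  exact Finset.sum_eq_zero fun i hi => hF i hi f α h

theorem causal_S (j : Fin s) (G : ℕ → C →ₗ[k] C) :
    Causal (S j G : Module.End k ((Fin s → ℕ) → C)) := by
  intro f α h
  rw [S_apply]
  split_ifs
  · rfl
  · rw [h _ (low_le j α), map_zero, smul_zero]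

theorem causal_S' (j : Fin s) (G : ℕ → C →ₗ[k] C) :
    Causal (S' j G : Module.End k ((Fin s → ℕ) → C)) := by
  intro f α h
  rw [S'_apply]
  split_ifs
  · rfl
  · rw [h _ (low_le j α), map_zero, smul_zero]

theorem causal_Y (j : Fin s) : Causal (P.Yj j) := by
  intro f α h
  unfold Yj
  rw [Y_apply]
  split_ifs
  · rfl
  · exact h _ ((low_le j _).trans (low_le j α))

theorem causal_D : Causal P.D := by
  unfold D
  refine Causal.add ?_ (Causal.sum _ _ fun j _ => causal_S j _)
  intro f α h
  rw [dh_apply, h α le_rfl, map_zero, smul_zero]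

/-- the exponent -/
def M : ℕ := P.T + 1

/-- the second factor of `Y ^ M` -/
def Q (i : Fin s) : Module.End k ((Fin s → ℕ) → C) :=
  ∑ a ∈ range P.M, P.Yj i ^ a * (-P.ε i) ^ (P.M - 1 - a)

theorem Q_eq (i : Fin s) : (P.Yj i + P.ε i) * P.Q i = P.Yj i ^ P.M := by
  have h1 : Commute (P.Yj i) (-P.ε i) := (P.Yε i).neg_right
  have h2 := h1.mul_geom_sum₂ P.M
  rw [sub_neg_eq_add] at h2
  have h3 : (-P.ε i) ^ P.M = 0 := by
    have := neg_pow (P.ε i) P.M
    rw [P.ε_nil i (by unfold M; omega), mul_zero] at this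
    exact this
  unfold Q
  rw [h2, h3, sub_zero]

theorem QD (i : Fin s) : Commute (P.Q i) P.D := by
  unfold Q
  refine Commute.sum_left _ _ _ fun a _ => ?_
  exact ((P.YD i).pow_left a).mul_left ((P.εD i).neg_left.pow_left _)

/-- the homotopy for `Y ^ M` -/
def h' (i : Fin s) : Module.End k ((Fin s → ℕ) → C) := P.h i * P.Q i

theorem Dh'' (i : Fin s) : P.D * P.h' i + P.h' i * P.D = P.Yj i ^ P.M := by
  unfold h'
  rw [mul_assoc (P.h i) (P.Q i) P.D, (P.QD i).eq, ← mul_assoc P.D, ← mul_assoc (P.h i) P.D,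
    ← add_mul, P.Dh' i, P.Q_eq]

theorem causal_h' (i : Fin s) : Causal (P.h' i) := by
  unfold h'
  refine (causal_S i _).mul ?_
  unfold Q
  refine Causal.sum _ _ fun a _ => ?_
  exact ((P.causal_Y i).pow a).mul (Causal.neg (causal_S' i _) |>.pow _)

theorem Ypow_lt (i : Fin s) (n : ℕ) (f : (Fin s → ℕ) → C) (α : Fin s → ℕ) (h : α i < 2 * n) :
    (P.Yj i ^ n) f α = 0 := by
  induction n generalizing α with
  | zero => omega
  | succ n ih =>
    rw [pow_succ', Module.End.mul_apply]
    change Y k i _ α = 0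
    rw [Y_apply]
    split_ifs
    · rfl
    · refine ih _ ?_
      rw [low_same, low_same]
      omega

theorem Ypow_up (i : Fin s) (n : ℕ) (f : (Fin s → ℕ) → C) (α : Fin s → ℕ) :
    (P.Yj i ^ n) f (up i (2 * n) α) = f α := by
  induction n generalizing α with
  | zero =>
    rw [pow_zero]
    change f (up i 0 α) = f α
    congr 1
    unfold up
    simp
  | succ n ih =>
    rw [pow_succ', Module.End.mul_apply]
    change Y k i _ _ = _
    rw [Y_apply, if_neg (by rw [up_same]; omega)]
    have : low i (low i (up i (2 * (n + 1)) α)) = up i (2 * n) α := by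
      funext l
      by_cases hl : l = i
      · subst hl
        rw [low_same, low_same, up_same, up_same]; omega
      · rw [low_ne hl, low_ne hl, up_ne hl, up_ne hl]
    rw [this]
    exact ih α

end Dat

end Pool.Agent.H54.Zim
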