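import Pool.Agent.H54.Zim.Alg

/-!
# Free actions of elementary abelian `p`-groups: the algebra, part 2
-/

set_option autoImplicit false

open Finset Module

namespace Pool.Agent.H54.Zim.Dat

variable {k : Type*} [Field k] {C : Type*} [AddCommGroup C] [Module k C] {s : ℕ} (P : Dat k C s)

/-- the box of the indices whose first `i` coordinates are small -/
def Box (i : ℕ) : Set (Fin s → ℕ) := {α | ∀ j : Fin s, j.val < i → α j < 2 * P.M}

theorem Box_le {i : ℕ} {α β : Fin s → ℕ} (hα : α ∈ P.Box i) (h : β ≤ α) : β ∈ P.Box i :=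
  fun j hj => (h j).trans_lt (hα j hj)

/-- the iterated homotopies -/
def zz (z : (Fin s → ℕ) → C) : ℕ → ((Fin s → ℕ) → C)
  | 0 => z
  | i + 1 => if hi : i < s then P.h' ⟨i, hi⟩ (zz z i) else 0

theorem D_h' (i : Fin s) (f : (Fin s → ℕ) → C) :
    P.D (P.h' i f) = (P.Yj i ^ P.M) f - P.h' i (P.D f) := by
  rw [← P.Dh'' i, LinearMap.add_apply, Module.End.mul_apply, Module.End.mul_apply]
  abel

theorem zz_box {z : (Fin s → ℕ) → C} (hz : P.D z = 0) (i : ℕ) :
    ∀ α ∈ P.Box i, P.D (P.zz z i) α = 0 := by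
  induction i with
  | zero => intro α _; rw [zz, hz]; rfl
  | succ i ih =>
    intro α hα
    rw [zz]
    split_ifs with hi
    · rw [D_h', Pi.sub_apply, P.Ypow_lt _ _ _ _ (hα ⟨i, hi⟩ (Nat.lt_succ_self i)),
        P.causal_h' ⟨i, hi⟩ _ _ ?_, sub_zero]
      intro β hβ
      exact ih β (P.Box_le (fun j hj => hα j (Nat.lt_succ_of_lt hj)) hβ)
    · rw [map_zero]; rfl

/-- the `i`-th cycle is equivalent to a cycle with values in `V` -/
def PP (z : (Fin s → ℕ) → C) (i : ℕ) (V : Submodule k C) : Prop :=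
  ∃ u w : (Fin s → ℕ) → C, (∀ α, u α ∈ V) ∧ ∀ α ∈ P.Box i, P.zz z i α = u α + P.D w α

theorem X_add (j : Fin s) (a n : ℕ) : P.X j (a + 2 * n) = P.X j a := by
  induction n with
  | zero => rfl
  | succ n ih => rw [mul_add, mul_one, ← add_assoc, P.X2, ih]

theorem D_mem {V V' : Submodule k C} (hd : ∀ c ∈ V, P.d c ∈ V') (hx : ∀ j, ∀ c ∈ V, P.x j c ∈ V')
    (hy : ∀ j, ∀ c ∈ V, P.y j c ∈ V') (u : (Fin s → ℕ) → C) (hu : ∀ α, u α ∈ V)
    (α : Fin s → ℕ) : P.D u α ∈ V' := by
  rw [D_apply]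
  refine V'.add_mem (V'.smul_mem _ (hd _ (hu α))) (V'.sum_mem fun j _ => ?_)
  split_ifs
  · exact V'.zero_mem
  · refine V'.smul_mem _ ?_
    unfold X
    split_ifs
    · exact hy _ _ (hu _)
    · exact hx _ _ (hu _)

theorem Tstep {z : (Fin s → ℕ) → C} (hz : P.D z = 0) {i : ℕ} (hi : i < s) {V V' : Submodule k C}
    (hd : ∀ c ∈ V, P.d c ∈ V') (hx : ∀ j, ∀ c ∈ V, P.x j c ∈ V')
    (hy : ∀ j, ∀ c ∈ V, P.y j c ∈ V') (h : P.PP z (i + 1) V) : P.PP z i V' := by
  obtain ⟨u, w, hu, hw⟩ := h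
  set I : Fin s := ⟨i, hi⟩ with hI
  set v : (Fin s → ℕ) → C := P.zz z (i + 1) - u - P.D w with hv
  have hv0 : ∀ α ∈ P.Box (i + 1), v α = 0 := by
    intro α hα
    rw [hv, Pi.sub_apply, Pi.sub_apply, hw α hα]
    abel
  refine ⟨fun α => P.D u (up I (2 * P.M) α), fun α => v (up I (2 * P.M) α),
    fun α => P.D_mem hd hx hy u hu _, ?_⟩
  intro α hα
  have hup : up I (2 * P.M) α ∈ P.Box i := by
    intro j hj
    rw [up_ne]
    · exact hα j hj
    · rintro rfl
      exact absurd hj (lt_irrefl i)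
  have h1 : P.D v (up I (2 * P.M) α) = P.zz z i α - P.D u (up I (2 * P.M) α) := by
    rw [hv, map_sub, map_sub, P.DD, sub_zero, Pi.sub_apply, zz, dif_pos hi, D_h', Pi.sub_apply,
      P.Ypow_up, P.causal_h' ⟨i, hi⟩ _ _ ?_, sub_zero]
    intro β hβ
    exact P.zz_box hz i β (P.Box_le hup hβ)
  have h2 : P.D v (up I (2 * P.M) α) = P.D (fun α => v (up I (2 * P.M) α)) α := by
    rw [D_apply, D_apply, sg_up]
    congr 1
    refine Finset.sum_congr rfl fun j _ => ?_
    rw [tau_up]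
    by_cases hj : j = I
    · rw [hj, up_same, X_add]
      by_cases h0 : α I = 0
      · rw [if_pos h0]
        split_ifs
        · rfl
        · rw [hv0, map_zero, smul_zero]
          intro j' hj'
          by_cases h3 : j' = I
          · rw [h3, low_same, up_same]
            unfold M
            omega
          · rw [low_ne h3, up_ne h3]
            refine hα j' ?_
            have : j'.val ≠ i := fun h => h3 (Fin.ext h)
            omega
      · rw [if_neg h0, if_neg (by omega), low_up h0]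
    · rw [up_ne hj, low_up_ne hj]
  rw [← h2, h1]
  abel

/-- the elements of degree at least `n` -/
def U (n : ℕ) : Submodule k C where
  carrier := {c | ∀ m, m < n → P.π m c = 0}
  zero_mem' := fun m _ => map_zero _
  add_mem' := by
    intro a b ha hb m hm
    rw [map_add, ha m hm, hb m hm, add_zero]
  smul_mem' := by
    intro r a ha m hm
    rw [map_smul, ha m hm, smul_zero]

theorem mem_U {n : ℕ} {c : C} : c ∈ P.U n ↔ ∀ m, m < n → P.π m c = 0 := Iff.rfl

/-- cycles in degree `n` -/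
def Wc (n : ℕ) : Submodule k C := P.U n ⊓ (LinearMap.ker (P.d ∘ₗ P.π n))

/-- boundaries in degree `n` -/
def Wb (n : ℕ) : Submodule k C := P.U n ⊓ (LinearMap.range P.d).comap (P.π n)

theorem mem_Wc {n : ℕ} {c : C} : c ∈ P.Wc n ↔ (∀ m, m < n → P.π m c = 0) ∧ P.d (P.π n c) = 0 :=
  Iff.rfl

theorem mem_Wb {n : ℕ} {c : C} :
    c ∈ P.Wb n ↔ (∀ m, m < n → P.π m c = 0) ∧ ∃ b, P.d b = P.π n c := Iff.rfl

theorem Wb_le (n : ℕ) : P.Wb n ≤ P.Wc n := by
  intro c hc
  obtain ⟨h1, b, hb⟩ := P.mem_Wb.1 hc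
  exact P.mem_Wc.2 ⟨h1, by rw [← hb, P.dd]⟩

theorem Wc_d {n : ℕ} {c : C} (hc : c ∈ P.Wc n) : P.d c ∈ P.Wb n := by
  obtain ⟨h1, h2⟩ := P.mem_Wc.1 hc
  refine P.mem_Wb.2 ⟨fun m hm => ?_, P.π (n + 1) c, P.dπ n c⟩
  rw [← P.dπ]
  rcases Nat.lt_or_ge (m + 1) n with h | h
  · rw [h1 _ h, map_zero]
  · obtain rfl : m + 1 = n := by omega
    exact h2

/-- the operators `x j`, `y j` -/
def Z (j : Fin s ⊕ Fin s) : Module.End k C := Sum.elim P.x P.y j

theorem Z_d (j : Fin s ⊕ Fin s) (c : C) : P.Z j (P.d c) = P.d (P.Z j c) := by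
  rcases j with j | j
  · exact P.xd j c
  · exact P.yd j c

theorem Z_π (j : Fin s ⊕ Fin s) (n : ℕ) (c : C) : P.Z j (P.π n c) = P.π n (P.Z j c) := by
  rcases j with j | j
  · exact P.xπ j n c
  · exact P.yπ j n c

theorem Z_Z (i j : Fin s ⊕ Fin s) (c : C) : P.Z i (P.Z j c) = P.Z j (P.Z i c) := by
  rcases i with i | i <;> rcases j with j | j
  · exact P.xx i j c
  · exact P.xy i j c
  · exact (P.xy j i c).symm
  · exact P.yy i j c

theorem Z_N (j : Fin s ⊕ Fin s) : P.Z j ^ P.N = 0 := by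
  rcases j with j | j
  · exact P.xN j
  · exact P.yN j

theorem PP_mono {z : (Fin s → ℕ) → C} {i : ℕ} {V V' : Submodule k C} (h : V ≤ V')
    (h1 : P.PP z i V) : P.PP z i V' := by
  obtain ⟨u, w, hu, hw⟩ := h1
  exact ⟨u, w, fun α => h (hu α), hw⟩

theorem Tstep' {z : (Fin s → ℕ) → C} (hz : P.D z = 0) {i : ℕ} (hi : i < s) {V V' : Submodule k C}
    (hd : ∀ c ∈ V, P.d c ∈ V') (hx : ∀ j, ∀ c ∈ V, P.Z j c ∈ V') (h : P.PP z (i + 1) V) :
    P.PP z i V' :=
  P.Tstep hz hi hd (fun j c hc => hx (Sum.inl j) c hc) (fun j c hc => hx (Sum.inr j) c hc) h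

theorem chain [FiniteDimensional k C] {z : (Fin s → ℕ) → C} (hz : P.D z = 0) {W : Submodule k C}
    (hW : ∀ j, W.map (P.Z j) ≤ W) (r : ℕ) : ∀ (i : ℕ) (V : Submodule k C), i + r ≤ s → W ≤ V →
      (∀ c ∈ V, P.d c ∈ W) → (∀ j, V.map (P.Z j) ≤ V) → finrank k V ≤ finrank k W + r →
      P.PP z (i + r) V → P.PP z i W := by
  induction r with
  | zero =>
    intro i V _ hWV _ _ hr h
    have : W = V := Submodule.eq_of_le_of_finrank_le hWV (by simpa using hr)
    rw [this]
    exact h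
  | succ r ih =>
    intro i V hi hWV hd hV hr h
    by_cases hVW : V ≤ W
    · have hw : ∀ c ∈ W, P.d c ∈ W := fun c hc => hd c (hWV hc)
      refine ih i W (by omega) le_rfl hw hW (by omega) ?_
      refine P.Tstep' hz (by omega) hd (fun j c hc => ?_) h
      exact hVW (hV j ⟨c, hc, rfl⟩)
    · set V' := W ⊔ (univ : Finset (Fin s ⊕ Fin s)).sup (fun j => V.map (P.Z j)) with hV'
      have h1 : V' ≤ V := sup_le hWV (Finset.sup_le fun j _ => hV j)
      have h2 : V' < V := by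
        refine lt_of_le_of_ne h1 fun he => hVW ?_
        exact nakayama P.Z P.N P.Z_N P.Z_Z V hV univ W hW he.ge
      have h3 := Submodule.finrank_lt_finrank_of_lt h2
      have h4 : ∀ j, V.map (P.Z j) ≤ V' := fun j =>
        (Finset.le_sup (f := fun j => V.map (P.Z j)) (mem_univ j)).trans le_sup_right
      refine ih i V' (by omega) le_sup_left (fun c hc => hd c (h1 hc))
        (fun j => (Submodule.map_mono h1).trans (h4 j)) (by omega) ?_
      exact P.Tstep' hz (by omega) (fun c hc => (le_sup_left : W ≤ V') (hd c hc))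
        (fun j c hc => h4 j ⟨c, hc, rfl⟩) h

theorem Wb_Z (n : ℕ) (j : Fin s ⊕ Fin s) : (P.Wb n).map (P.Z j) ≤ P.Wb n := by
  rintro _ ⟨c, hc, rfl⟩
  obtain ⟨h1, b, hb⟩ := P.mem_Wb.1 hc
  refine P.mem_Wb.2 ⟨fun m hm => ?_, P.Z j b, ?_⟩
  · rw [← P.Z_π, h1 m hm, map_zero]
  · rw [← P.Z_d, hb, P.Z_π]

theorem Wc_Z (n : ℕ) (j : Fin s ⊕ Fin s) : (P.Wc n).map (P.Z j) ≤ P.Wc n := by
  rintro _ ⟨c, hc, rfl⟩
  obtain ⟨h1, h2⟩ := P.mem_Wc.1 hc
  refine P.mem_Wc.2 ⟨fun m hm => ?_, ?_⟩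
  · rw [← P.Z_π, h1 m hm, map_zero]
  · rw [← P.Z_π, ← P.Z_d, h2, map_zero]

theorem Estep {z : (Fin s → ℕ) → C} (hz : P.D z = 0) {i n : ℕ} (h : P.PP z i (P.Wb n)) :
    P.PP z i (P.Wc (n + 1)) := by
  classical
  obtain ⟨u, w, hu, hw⟩ := h
  choose hu1 b hb using fun α => P.mem_Wb.1 (hu α)
  set c' : (Fin s → ℕ) → C := fun α => sg k α • P.π (n + 1) (b α) with hc'
  set u1 : (Fin s → ℕ) → C := u - P.D c' with hu1'
  have hπ : ∀ m, m < n + 1 → ∀ α, P.π m (u1 α) = 0 := by
    intro m hm α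
    rw [hu1', Pi.sub_apply, D_apply, map_sub, map_add, map_smul, map_sum]
    have h1 : P.d (c' α) = sg k α • P.π n (u α) := by
      rw [hc']
      change P.d (sg k α • P.π (n + 1) (b α)) = _
      rw [map_smul, P.dπ, hb, P.ππ, if_pos rfl]
    have h2 : ∀ β, P.π m (c' β) = 0 := by
      intro β
      change P.π m (sg k β • P.π (n + 1) (b β)) = 0
      rw [map_smul, P.ππ, if_neg (by omega), smul_zero]
    rw [h1, map_smul, smul_smul, sg_sq, one_smul, P.ππ]
    have h3 : ∑ x, P.π m (if α x = 0 then 0 else tau k x α • P.X x (α x) (c' (low x α))) = 0 := by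
      refine Finset.sum_eq_zero fun j _ => ?_
      split_ifs
      · exact map_zero _
      · rw [map_smul, ← P.Xπ, h2, map_zero, smul_zero]
    rw [h3, add_zero]
    split_ifs with h4
    · rw [h4, sub_self]
    · rw [hu1 α m (by omega), sub_zero]
  have hD : ∀ α ∈ P.Box i, P.D u1 α = 0 := by
    intro α hα
    have h1 : P.D (P.zz z i - u1 - P.D (w + c')) α = 0 := by
      refine P.causal_D _ _ fun β hβ => ?_
      have := hw β (P.Box_le hα hβ)
      rw [Pi.sub_apply, Pi.sub_apply, map_add, hu1', this]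
      simp only [Pi.sub_apply, Pi.add_apply]
      abel
    rw [map_sub, map_sub, P.DD, sub_zero, Pi.sub_apply, P.zz_box hz i α hα, zero_sub,
      neg_eq_zero] at h1
    exact h1
  refine ⟨fun α => if α ∈ P.Box i then u1 α else 0, w + c', fun α => ?_, fun α hα => ?_⟩
  · change (if α ∈ P.Box i then u1 α else 0) ∈ _
    split_ifs with hα
    · refine P.mem_Wc.2 ⟨fun m hm => hπ m hm α, ?_⟩
      rw [P.dπ]
      have h1 := congrArg (P.π n) (hD α hα)
      rw [D_apply, map_add, map_smul, map_sum, map_zero] at h1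
      have h3 : ∑ x, P.π n (if α x = 0 then 0 else tau k x α • P.X x (α x) (u1 (low x α))) = 0 := by
        refine Finset.sum_eq_zero fun j _ => ?_
        split_ifs
        · exact map_zero _
        · rw [map_smul, ← P.Xπ, hπ n (Nat.lt_succ_self n), map_zero, smul_zero]
      rw [h3, add_zero] at h1
      have h4 : sg k α • (sg k α • P.π n (P.d (u1 α))) = sg k α • (0 : C) := by rw [h1]
      rwa [smul_smul, sg_sq, one_smul, smul_zero] at h4
    · exact Submodule.zero_mem _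
  · change _ = (if α ∈ P.Box i then u1 α else 0) + _
    rw [if_pos hα, hw α hα, map_add, hu1']
    simp only [Pi.sub_apply, Pi.add_apply]
    abel

/-- dimension of image and kernel -/
theorem fr {C' : Type*} [AddCommGroup C'] [Module k C'] [FiniteDimensional k C]
    (f : C →ₗ[k] C') (V : Submodule k C) :
    finrank k (V.map f) + finrank k (V ⊓ LinearMap.ker f : Submodule k C) = finrank k V := by
  have h1 := LinearMap.finrank_range_add_finrank_ker (f.domRestrict V)
  have h2 : LinearMap.range (f.domRestrict V) = V.map f := by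
    rw [LinearMap.domRestrict, LinearMap.range_comp, Submodule.range_subtype]
  have h3 : finrank k (LinearMap.ker (f.domRestrict V)) =
      finrank k (V ⊓ LinearMap.ker f : Submodule k C) := by
    have h4 : (LinearMap.ker (f.domRestrict V)).map V.subtype = V ⊓ LinearMap.ker f := by
      ext c
      constructor
      · rintro ⟨⟨c, hc⟩, h1, rfl⟩
        exact ⟨hc, h1⟩
      · rintro ⟨h1, h2⟩
        exact ⟨⟨c, h1⟩, h2, rfl⟩
    rw [← h4]
    exact (Submodule.equivMapOfInjective V.subtype V.injective_subtype _).finrank_eq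
  rw [h2, h3] at h1
  exact h1

/-- the degree `n` boundaries -/
def Bn (n : ℕ) : Submodule k C := (LinearMap.range P.d).map (P.π n)

theorem fin_Wb [FiniteDimensional k C] (n : ℕ) :
    finrank k (P.Wb n) = finrank k (P.U (n + 1)) + finrank k (P.Bn n) := by
  have h1 := fr (P.π n) (P.Wb n)
  have h2 : (P.Wb n).map (P.π n) = P.Bn n := by
    ext c
    constructor
    · rintro ⟨a, ha, rfl⟩
      obtain ⟨_, b, hb⟩ := P.mem_Wb.1 ha
      refine ⟨P.π n a, ⟨b, hb⟩, ?_⟩
      rw [P.ππ, if_pos rfl]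
    · rintro ⟨_, ⟨b, rfl⟩, rfl⟩
      refine ⟨P.π n (P.d b), P.mem_Wb.2 ⟨fun m hm => ?_, ?_⟩, ?_⟩
      · rw [P.ππ, if_neg (by omega)]
      · rw [P.ππ, if_pos rfl]
        exact ⟨P.π (n + 1) b, P.dπ n b⟩
      · rw [P.ππ, if_pos rfl]
  have h3 : P.Wb n ⊓ LinearMap.ker (P.π n) = P.U (n + 1) := by
    ext c
    constructor
    · rintro ⟨h4, h5⟩
      intro m hm
      rcases Nat.lt_or_ge m n with h | h
      · exact (P.mem_Wb.1 h4).1 m h
      · obtain rfl : m = n := by omega
        exact h5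
    · intro h4
      have h5 : P.π n c = 0 := h4 n (Nat.lt_succ_self n)
      refine ⟨P.mem_Wb.2 ⟨fun m hm => h4 m (by omega), 0, by rw [h5, map_zero]⟩, h5⟩
  rw [h2, h3] at h1
  omega

theorem fin_U [FiniteDimensional k C] (n : ℕ) :
    finrank k (P.U (n + 1)) = finrank k (P.Wc (n + 1)) + finrank k (P.Bn n) := by
  have h1 := fr (P.d ∘ₗ P.π (n + 1)) (P.U (n + 1))
  have h2 : (P.U (n + 1)).map (P.d ∘ₗ P.π (n + 1)) = P.Bn n := by
    ext c
    constructor
    · rintro ⟨a, _, rfl⟩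
      exact ⟨P.d a, ⟨a, rfl⟩, (P.dπ n a).symm⟩
    · rintro ⟨_, ⟨b, rfl⟩, rfl⟩
      refine ⟨P.π (n + 1) b, fun m hm => ?_, ?_⟩
      · rw [P.ππ, if_neg (by omega)]
      · rw [LinearMap.comp_apply, P.ππ, if_pos rfl, P.dπ]
  rw [h2] at h1
  change _ = finrank k (P.U (n + 1) ⊓ LinearMap.ker (P.d ∘ₗ P.π (n + 1)) : Submodule k C) + _
  omega

theorem fin_d [FiniteDimensional k C] :
    finrank k (LinearMap.range P.d) ≤ ∑ n ∈ range P.T, finrank k (P.Bn n) := by
  have h1 : LinearMap.range P.d ≤ (range P.T).sup P.Bn := by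
    rintro _ ⟨b, rfl⟩
    rw [← P.πs (P.d b)]
    refine Submodule.sum_mem _ fun n hn => ?_
    exact (Finset.le_sup (f := P.Bn) hn) ⟨P.d b, ⟨b, rfl⟩, rfl⟩
  refine (Submodule.finrank_mono h1).trans ?_
  generalize range P.T = t
  classical
  induction t using Finset.induction_on with
  | empty => simp
  | insert a t ha ih =>
    rw [Finset.sup_insert, Finset.sum_insert ha]
    exact (Submodule.finrank_add_le_finrank_add_finrank _ _).trans (Nat.add_le_add_left ih _)

theorem U_T : P.U P.T = ⊥ := by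
  rw [eq_bot_iff]
  intro c hc
  rw [Submodule.mem_bot, ← P.πs c]
  exact Finset.sum_eq_zero fun n hn => hc n (Finset.mem_range.1 hn)

theorem Wc_zero : P.Wc 0 = ⊤ := by
  rw [eq_top_iff]
  intro c _
  exact P.mem_Wc.2 ⟨fun m hm => absurd hm (Nat.not_lt_zero m), P.dπ0 c⟩

/-- the cost of degree `n` -/
noncomputable def cost (n : ℕ) : ℕ := finrank k (P.Wc n) - finrank k (P.Wb n)

theorem sum_cost [FiniteDimensional k C] (n : ℕ) :
    ∑ m ∈ range n, P.cost m + 2 * ∑ m ∈ range n, finrank k (P.Bn m) + finrank k (P.Wc n) =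
      finrank k C := by
  induction n with
  | zero =>
    rw [P.Wc_zero, finrank_top]; simp
  | succ n ih =>
    rw [Finset.sum_range_succ, Finset.sum_range_succ, ← ih]
    have h1 := P.fin_Wb n
    have h2 := P.fin_U n
    have h3 : finrank k (P.Wb n) ≤ finrank k (P.Wc n) := Submodule.finrank_mono (P.Wb_le n)
    unfold cost
    omega

/-- if the homology is small, then the cycles of the Borel construction are boundaries -/
theorem borel [FiniteDimensional k C]
    (hs : finrank k (LinearMap.ker P.d) ≤ finrank k (LinearMap.range P.d) + s)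
    (z : (Fin s → ℕ) → C) (hz : P.D z = 0) : ∃ w, z = P.D w := by
  have key : ∀ n, ∀ i, i + ∑ m ∈ range n, P.cost m ≤ s → P.PP z i (P.Wc n) := by
    intro n
    induction n with
    | zero =>
      intro i _
      rw [P.Wc_zero]
      refine ⟨P.zz z i, 0, fun _ => Submodule.mem_top, fun α _ => ?_⟩
      rw [map_zero]
      simp
    | succ n ih =>
      intro i hi
      rw [Finset.sum_range_succ] at hi
      refine P.Estep hz ?_
      refine P.chain hz (P.Wb_Z n) (P.cost n) i (P.Wc n) (by omega) (P.Wb_le n)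
        (fun c hc => P.Wc_d hc) (P.Wc_Z n) (by unfold cost; omega) ?_
      exact ih _ (by omega)
  have h1 := P.sum_cost P.T
  have h2 := P.fin_d
  have h3 := LinearMap.finrank_range_add_finrank_ker P.d
  obtain ⟨u, w, hu, hw⟩ := key P.T 0 (by omega)
  refine ⟨w, ?_⟩
  funext α
  have h4 : u α = 0 := by
    have h5 : u α ∈ P.U P.T := (inf_le_left : P.Wc P.T ≤ P.U P.T) (hu α)
    rwa [P.U_T, Submodule.mem_bot] at h5
  have h6 := hw α fun j hj => absurd hj (Nat.not_lt_zero _)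
  rw [h4, zero_add] at h6
  exact h6

end Pool.Agent.H54.Zim.Dat
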