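import Pool.Agent.H54.Zim.Alg2

/-!
# Free actions of elementary abelian `p`-groups: the algebra, part 3
-/

set_option autoImplicit false

open Finset Module

namespace Pool.Agent.H54.Zim.Dat

variable {k : Type*} [Field k] {C : Type*} [AddCommGroup C] [Module k C] {s : ℕ} (P : Dat k C s)

/-- the indices whose coordinates from `i` on are zero -/
def FF (s i : ℕ) : Set (Fin s → ℕ) := {α | ∀ j : Fin s, i ≤ j.val → α j = 0}

/-- the complex of the families on `FF s i` is acyclic -/
def QQ (i : ℕ) : Prop :=
  ∀ f, (∀ α ∈ FF s i, P.D f α = 0) → ∃ w, ∀ α ∈ FF s i, f α = P.D w α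

theorem FF_low {i : ℕ} {α : Fin s → ℕ} (h : α ∈ FF s i) (j : Fin s) : low j α ∈ FF s i := by
  intro l hl
  have := low_le j α l
  rw [h l hl] at this
  exact Nat.le_zero.1 this

theorem FF_sub {i : ℕ} {hi : i < s} {α : Fin s → ℕ} (h : α ∈ FF s (i + 1)) (h0 : α ⟨i, hi⟩ = 0) :
    α ∈ FF s i := by
  intro l hl
  by_cases h1 : l = ⟨i, hi⟩
  · rw [h1, h0]
  · refine h l ?_
    have : l.val ≠ i := fun h => h1 (Fin.ext h)
    omega

theorem FF_mono {i : ℕ} {α : Fin s → ℕ} (h : α ∈ FF s i) : α ∈ FF s (i + 1) :=
  fun l hl => h l (by omega)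

theorem tau_sg {i : ℕ} {hi : i < s} {α : Fin s → ℕ} (h : α ∈ FF s i) :
    tau k ⟨i, hi⟩ α = sg k α := by
  unfold tau sg
  congr 1
  refine Finset.sum_subset (Finset.filter_subset _ _) fun l _ hl => h l ?_
  by_contra h1
  refine hl (Finset.mem_filter.2 ⟨mem_univ l, ?_⟩)
  exact Fin.lt_def.2 (by simpa using h1)

/-- `D` commutes with the operators `F` on `C` which commute with `d`, `x`, `y` -/
theorem D_comp {F : C →ₗ[k] C} (hd : ∀ c, F (P.d c) = P.d (F c))
    (hX : ∀ j a c, F (P.X j a c) = P.X j a (F c)) (f : (Fin s → ℕ) → C) (α : Fin s → ℕ) :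
    P.D (fun α => F (f α)) α = F (P.D f α) := by
  rw [D_apply, D_apply, map_add, map_smul, map_sum, hd]
  congr 1
  refine Finset.sum_congr rfl fun j _ => ?_
  split_ifs
  · rw [map_zero]
  · rw [map_smul, hX]

theorem lemA {i : ℕ} (hi : i < s) (hQ : P.QQ (i + 1)) (f g : (Fin s → ℕ) → C)
    (hf : ∀ α ∈ FF s i, P.D f α = 0) (hg : ∀ α ∈ FF s i, P.x ⟨i, hi⟩ (f α) = P.D g α) :
    ∃ w, ∀ α ∈ FF s i, f α = P.D w α := by
  set I : Fin s := ⟨i, hi⟩ with hI
  set F : (Fin s → ℕ) → C := fun α =>
    if α I = 0 then f α else if α I = 1 then sg k (low I α) • g (low I α) else 0 with hF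
  set G : (Fin s → ℕ) → C := fun α => if α I = 0 then P.y I (g α) else 0 with hG
  have hX1 : P.X I 1 = P.x I := by unfold X; rw [if_neg (by decide)]
  have hX2 : P.X I 2 = P.y I := by unfold X; rw [if_pos (by decide)]
  have hF0 : ∀ α, α I = 0 → F α = f α := fun α h => by rw [hF]; exact if_pos h
  have hF1 : ∀ α, α I = 1 → F α = sg k (low I α) • g (low I α) := fun α h => by
    rw [hF]
    change (if α I = 0 then f α else if α I = 1 then _ else 0) = _
    rw [if_neg (by omega), if_pos h]
  have hF2 : ∀ α, 2 ≤ α I → F α = 0 := fun α h => by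
    rw [hF]
    change (if α I = 0 then f α else if α I = 1 then _ else 0) = _
    rw [if_neg (by omega), if_neg (by omega)]
  have hG0 : ∀ α, α I = 0 → G α = P.y I (g α) := fun α h => by rw [hG]; exact if_pos h
  have hG1 : ∀ α, α I ≠ 0 → G α = 0 := fun α h => by rw [hG]; exact if_neg h
  -- the differential of `F`
  have hDF : ∀ α ∈ FF s (i + 1), P.D F α = P.Yj I G α := by
    intro α hα
    change _ = Y k I G α
    rw [Y_apply]
    by_cases h0 : α I = 0
    · rw [if_pos (by omega), ← hf α (FF_sub (hi := hi) hα h0), D_apply, D_apply, hF0 α h0]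
      congr 1
      refine Finset.sum_congr rfl fun j _ => ?_
      by_cases hj : j = I
      · rw [hj, if_pos h0, if_pos h0]
      · rw [hF0 (low j α) (by rw [low_ne (Ne.symm hj)]; exact h0)]
    · have hlow : ∀ j, j ≠ I → α j ≠ 0 → j < I := by
        intro j hj hj0
        by_contra h
        refine hj0 (hα j ?_)
        rcases lt_or_eq_of_le (not_lt.1 h) with h1 | h1
        · exact Fin.lt_def.1 h1
        · exact absurd h1.symm hj
      by_cases h1 : α I = 1
      · rw [if_pos (by omega)]
        set β := low I α with hβ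
        have hβ0 : β I = 0 := by rw [hβ, low_same]; omega
        have hβF : β ∈ FF s i := FF_sub (hi := hi) (FF_low hα I) hβ0
        have h2 := hg β hβF
        rw [D_apply] at h2
        have h3 : ∑ j, (if α j = 0 then 0 else tau k j α • P.X j (α j) (F (low j α))) =
            -(sg k β • ∑ j, if β j = 0 then 0 else tau k j β • P.X j (β j) (g (low j β))) +
              sg k β • P.x I (f β) := by
          rw [Finset.smul_sum, ← Finset.sum_neg_distrib, ← Finset.add_sum_erase univ _ (mem_univ I),
            ← Finset.add_sum_erase univ (fun j => -(sg k β •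
              if β j = 0 then 0 else tau k j β • P.X j (β j) (g (low j β)))) (mem_univ I),
            if_neg h0, if_pos hβ0, smul_zero, neg_zero, zero_add, add_comm, ← hβ, hF0 β hβ0, h1, hX1,
            ← tau_low_not_lt (j := I) (i := I) (lt_irrefl I), ← hβ, tau_sg hβF]
          congr 1
          refine Finset.sum_congr rfl fun j hj => ?_
          have hjI : j ≠ I := Finset.ne_of_mem_erase hj
          have hβj : β j = α j := by rw [hβ, low_ne hjI]
          rw [hβj]
          by_cases hj0 : α j = 0
          · rw [if_pos hj0, if_pos hj0, smul_zero, neg_zero]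
          · have hlt := hlow j hjI hj0
            rw [if_neg hj0, if_neg hj0, hF1 _ (by rw [low_ne (Ne.symm hjI)]; exact h1),
              low_comm I j, ← hβ, sg_low (by rw [hβj]; exact hj0), map_smul, neg_smul, smul_neg,
              smul_smul, smul_smul, hβ, tau_low_not_lt (not_lt.2 hlt.le), mul_comm]
        rw [D_apply, h3, hF1 α h1, ← hβ, map_smul, h2, smul_add, smul_smul, smul_smul, sg_sq,
          one_smul]
        have h4 : sg k α = -sg k β := by rw [hβ, sg_low h0, neg_neg]
        rw [h4, neg_mul, sg_sq, neg_one_smul]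
        abel
      · have h2 : ¬ α I < 2 := by omega
        rw [if_neg h2, D_apply, hF2 α (by omega), map_zero, smul_zero, zero_add,
          Finset.sum_eq_single I]
        · rw [if_neg h0]
          by_cases h3 : α I = 2
          · have h4 : low I (low I α) I = 0 := by rw [low_same, low_same]; omega
            have h5 : low I (low I α) ∈ FF s i :=
              FF_sub (hi := hi) (FF_low (FF_low hα I) I) h4
            rw [hF1 _ (by rw [low_same]; omega), hG0 _ h4, h3, hX2, map_smul, smul_smul,
              ← tau_low_not_lt (j := I) (i := I) (lt_irrefl I),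
              ← tau_low_not_lt (j := I) (i := I) (α := low I α) (lt_irrefl I), tau_sg h5, sg_sq,
              one_smul]
          · rw [hF2 _ (by rw [low_same]; omega), map_zero, smul_zero,
              hG1 _ (by rw [low_same, low_same]; omega)]
        · intro j _ hj
          rw [hF2 (low j α) (by rw [low_ne (Ne.symm hj)]; omega), map_zero, smul_zero, ite_self]
        · intro h; exact absurd (mem_univ I) h
  -- `G` is a cycle
  have hDG : ∀ α ∈ FF s (i + 1), P.D G α = 0 := by
    intro α hα
    by_cases h0 : α I = 0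
    · have h1 : P.D G α = P.D (fun α => P.y I (g α)) α := by
        rw [D_apply, D_apply, hG0 α h0]
        congr 1
        refine Finset.sum_congr rfl fun j _ => ?_
        by_cases hj : j = I
        · rw [hj, if_pos h0, if_pos h0]
        · rw [hG0 (low j α) (by rw [low_ne (Ne.symm hj)]; exact h0)]
      rw [h1, P.D_comp (P.yd I) (fun j a c => ?_), ← hg α (FF_sub (hi := hi) hα h0), ← P.xy,
        P.xy0]
      unfold X
      split_ifs
      · exact P.yy I j c
      · exact (P.xy j I c).symm
    · rw [D_apply, hG1 α h0, map_zero, smul_zero, zero_add]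
      refine Finset.sum_eq_zero fun j _ => ?_
      by_cases hj : j = I
      · rw [hj, if_neg h0]
        by_cases h1 : α I = 1
        · rw [hG0 _ (by rw [low_same]; omega), h1, hX1, P.xy0, smul_zero]
        · rw [hG1 _ (by rw [low_same]; omega), map_zero, smul_zero]
      · rw [hG1 (low j α) (by rw [low_ne (Ne.symm hj)]; exact h0), map_zero, smul_zero, ite_self]
  obtain ⟨w, hw⟩ := hQ G hDG
  have hD2 : ∀ α ∈ FF s (i + 1), P.D (F - P.Yj I w) α = 0 := by
    intro α hα
    have h1 : P.D (P.Yj I w) = P.Yj I (P.D w) := by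
      have := congrArg (fun e : Module.End k ((Fin s → ℕ) → C) => e w) (P.YD I).eq
      exact this.symm
    rw [map_sub, h1, Pi.sub_apply, hDF α hα]
    change Y k I G α - Y k I (P.D w) α = 0
    rw [Y_apply, Y_apply]
    split_ifs
    · rw [sub_self]
    · rw [hw _ (FF_low (FF_low hα I) I), sub_self]
  obtain ⟨v, hv⟩ := hQ _ hD2
  refine ⟨v, fun α hα => ?_⟩
  have h0 : α I = 0 := hα I le_rfl
  have h1 := hv α (FF_mono hα)
  rw [Pi.sub_apply, hF0 α h0] at h1
  have h2 : P.Yj I w α = 0 := by
    change Y k I w α = 0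
    rw [Y_apply, if_pos (by omega)]
  rw [h2, sub_zero] at h1
  exact h1

theorem step {i : ℕ} (hi : i < s) (hQ : P.QQ (i + 1)) : P.QQ i := by
  set I : Fin s := ⟨i, hi⟩ with hI
  have hc : ∀ n c, (P.x I ^ n) (P.x I c) = P.x I ((P.x I ^ n) c) := by
    intro n c
    rw [← Module.End.mul_apply, ← Module.End.mul_apply, ← pow_succ, pow_succ']
  have hd : ∀ n c, (P.x I ^ n) (P.d c) = P.d ((P.x I ^ n) c) := by
    intro n
    induction n with
    | zero => intro c; rfl
    | succ n ih => intro c; rw [pow_succ', Module.End.mul_apply, Module.End.mul_apply, ih, P.xd]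
  have hX : ∀ n j a c, (P.x I ^ n) (P.X j a c) = P.X j a ((P.x I ^ n) c) := by
    intro n
    induction n with
    | zero => intro j a c; rfl
    | succ n ih =>
      intro j a c
      rw [pow_succ', Module.End.mul_apply, Module.End.mul_apply, ih]
      unfold X
      split_ifs
      · exact P.xy I j _
      · exact P.xx I j _
  have key : ∀ n, ∀ f, (∀ α ∈ FF s i, P.D f α = 0) →
      (∃ g, ∀ α ∈ FF s i, (P.x I ^ n) (f α) = P.D g α) → ∃ w, ∀ α ∈ FF s i, f α = P.D w α := by
    intro n
    induction n with
    | zero => rintro f _ ⟨g, hg⟩; exact ⟨g, hg⟩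
    | succ n ih =>
      rintro f hf ⟨g, hg⟩
      refine ih f hf ?_
      refine P.lemA hi hQ (fun α => (P.x I ^ n) (f α)) g ?_ ?_
      · intro α hα
        rw [P.D_comp (hd n) (hX n), hf α hα, map_zero]
      · intro α hα
        rw [← hg α hα, pow_succ', Module.End.mul_apply]
  intro f hf
  refine key P.N f hf ⟨0, fun α _ => ?_⟩
  rw [P.xN, map_zero]
  rfl

/-- a complex of small homology with a free action is acyclic -/
theorem main [FiniteDimensional k C]
    (hs : finrank k (LinearMap.ker P.d) ≤ finrank k (LinearMap.range P.d) + s) (c : C)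
    (hc : P.d c = 0) : ∃ b, P.d b = c := by
  have key : ∀ n, n ≤ s → P.QQ (s - n) := by
    intro n
    induction n with
    | zero =>
      intro _ f hf
      have : P.D f = 0 := by
        funext α
        refine hf α fun j hj => ?_
        have := j.2
        omega
      obtain ⟨w, hw⟩ := P.borel hs f this
      exact ⟨w, fun α _ => by rw [← hw]⟩
    | succ n ih =>
      intro hn
      have h1 := ih (by omega)
      have h2 : s - n = s - (n + 1) + 1 := by omega
      rw [h2] at h1
      exact P.step (by omega) h1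
  have h0 := key s le_rfl
  rw [Nat.sub_self] at h0
  have hz : ∀ α ∈ FF s 0, α = 0 := by
    intro α hα
    funext j
    exact hα j (Nat.zero_le _)
  obtain ⟨w, hw⟩ := h0 (fun _ => c) (by
    intro α hα
    rw [hz α hα, D_apply, hc, smul_zero, zero_add]
    exact Finset.sum_eq_zero fun j _ => if_pos rfl)
  have h1 := hw 0 (fun j _ => rfl)
  have h2 : (∑ j, if (0 : Fin s → ℕ) j = 0 then (0 : C) else
      tau k j 0 • (P.X j ((0 : Fin s → ℕ) j)) (w (low j 0))) = 0 :=
    Finset.sum_eq_zero fun j _ => if_pos rfl
  rw [D_apply, h2, add_zero] at h1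
  refine ⟨sg k (0 : Fin s → ℕ) • w 0, ?_⟩
  rw [map_smul, ← h1]

end Pool.Agent.H54.Zim.Dat
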